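import Pool.Agent.H437R3.LowFinal

set_option autoImplicit false

/-!
There is a computable field `F` with a low ordering such that no ordered field isomorphic to
`(F, <)` has a computable domain, computable field operations and a computable ordering.

The field is `ℚ(r) ⊆ ℝ` where `r = ∑_{k ∈ X} 3 ^ (-((k + 1)! + 1))` and `X` is a low set which is
not computable. The number `r` is a Liouville number, so that `F` is isomorphic to `ℚ(t)` and has
a computable presentation. The order of `F` in this presentation is computable in `X`, so it is
low. In a computable ordered copy the cut of `r` in `ℚ` would be computable, and so would be `X`.
-/

namespace Pool.Agent.Results.MP_1308e3_lc.LowNoCopy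

open Pool.Agent.H437R3.OrdField

/-- There are an ordered field `F` and a presentation `P` of `F` with a computable domain and
computable field operations for which the ordering is low, such that no ordered field `K`
isomorphic to `F` has a presentation in which the domain, the field operations and the ordering
are all computable. -/
theorem result : ∃ (F : Type) (_ : Field F) (_ : LinearOrder F) (_ : IsStrictOrderedRing F)
    (P : Pres F), P.IsComputable ∧ Low P.orderSet ∧
    ∀ (K : Type) (_ : Field K) (_ : LinearOrder K) (_ : IsStrictOrderedRing K) (_ : F ≃+*o K)
      (Q : Pres K), Q.IsComputable → ¬ ComputablePred (· ∈ Q.orderSet) :=
  main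

end Pool.Agent.Results.MP_1308e3_lc.LowNoCopy
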